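import Pool.Agent.N24.TR.Tree

/-!
# The abstract commensurator of a group, and groups acting on trees with commensurable stabilizers
-/

set_option autoImplicit false

namespace Pool.Agent.N24.CM

open Pool.Agent.Y110.FJ (ClosedE)

section comm

variable (P : Type) [Group P]

/-- `f` is multiplicative on the subgroup `A` -/
def MulOn {P : Type} [Group P] (f : P → P) (A : Subgroup P) : Prop :=
  ∀ a ∈ A, ∀ b ∈ A, f (a * b) = f a * f b

/-- Maps from `P` to `P` which are homomorphisms on some subgroup of finite index. -/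
def VMap : Type := {f : P → P // ∃ A : Subgroup P, A.FiniteIndex ∧ MulOn f A}

/-- equality on a subgroup of finite index -/
instance vsetoid : Setoid (VMap P) where
  r f g := ∃ A : Subgroup P, A.FiniteIndex ∧ ∀ a ∈ A, f.1 a = g.1 a
  iseqv :=
    { refl := fun _ => ⟨⊤, inferInstance, fun _ _ => rfl⟩
      symm := by
        rintro f g ⟨A, hA, h⟩
        exact ⟨A, hA, fun a ha => (h a ha).symm⟩
      trans := by
        rintro f g k ⟨A, hA, h⟩ ⟨B, hB, h'⟩
        exact ⟨A ⊓ B, inferInstance, fun a ha => (h a ha.1).trans (h' a ha.2)⟩ }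

/-- Virtual endomorphisms: germs of homomorphisms from subgroups of finite index to `P`. -/
def VEnd : Type := Quotient (vsetoid P)

variable {P}

/-- preimages of subgroups of finite index -/
theorem exists_preimage {g : P → P} {A : Subgroup P} (hA : A.FiniteIndex) (hg : MulOn g A)
    {E : Subgroup P} (hE : E.FiniteIndex) :
    ∃ D : Subgroup P, D.FiniteIndex ∧ D ≤ A ∧ ∀ a ∈ D, g a ∈ E := by
  let φ : A →* P := MonoidHom.mk' (fun a => g a) fun a b => hg a a.2 b b.2
  have h1 : (E.comap φ).FiniteIndex := by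
    have h2 : (E.subgroupOf φ.range).FiniteIndex := inferInstance
    refine ⟨?_⟩
    rw [Subgroup.index_comap]
    exact h2.index_ne_zero
  refine ⟨(E.comap φ).map A.subtype, ⟨?_⟩, ?_, ?_⟩
  · rw [Subgroup.index_map_subtype]
    exact mul_ne_zero h1.index_ne_zero hA.index_ne_zero
  · rintro _ ⟨a, _, rfl⟩
    exact a.2
  · rintro _ ⟨a, ha, rfl⟩
    exact ha

/-- composition -/
def VMap.comp (f g : VMap P) : VMap P :=
  ⟨f.1 ∘ g.1, by
    obtain ⟨A, hA, hf⟩ := f.2
    obtain ⟨B, hB, hg⟩ := g.2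
    obtain ⟨D, hD, hDB, hDA⟩ := exists_preimage hB hg hA
    refine ⟨D, hD, fun a ha b hb => ?_⟩
    show f.1 (g.1 (a * b)) = _
    rw [hg a (hDB ha) b (hDB hb), hf _ (hDA a ha) _ (hDA b hb)]
    rfl⟩

instance : Monoid (VEnd P) where
  mul := Quotient.map₂ VMap.comp (by
    rintro f f' ⟨E, hE, h⟩ g g' ⟨E', hE', h'⟩
    obtain ⟨B, hB, hg⟩ := g.2
    obtain ⟨D, hD, hDB, hDE⟩ := exists_preimage hB hg hE
    refine ⟨D ⊓ E', inferInstance, fun a ha => ?_⟩
    show f.1 (g.1 a) = f'.1 (g'.1 a)
    rw [h _ (hDE a ha.1), h' a ha.2])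
  one := Quotient.mk _ ⟨id, ⊤, inferInstance, fun _ _ _ _ => rfl⟩
  mul_assoc := by
    rintro ⟨f⟩ ⟨g⟩ ⟨k⟩
    rfl
  one_mul := by
    rintro ⟨f⟩
    rfl
  mul_one := by
    rintro ⟨f⟩
    rfl

variable (P)

/-- **The abstract commensurator of `P`**: the group of the invertible virtual endomorphisms. -/
abbrev Comm : Type := (VEnd P)ˣ

end comm

section hom

variable {G : Type} [Group G] (H : Subgroup G)

open Classical in
/-- conjugation by `g`, where it is defined -/
noncomputable def cj (g : G) (x : H) : H :=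
  if h : g * x * g⁻¹ ∈ H then ⟨g * x * g⁻¹, h⟩ else 1

/-- the elements of `H` whose conjugates by `g` are in `H` -/
def dom (g : G) : Subgroup H := (H.comap (MulAut.conj g).toMonoidHom).subgroupOf H

theorem mem_dom {g : G} {x : H} : x ∈ dom H g ↔ g * x * g⁻¹ ∈ H := Iff.rfl

theorem cj_coe {g : G} {x : H} (h : x ∈ dom H g) : (cj H g x : G) = g * x * g⁻¹ := by
  unfold cj
  rw [dif_pos ((mem_dom H).1 h)]

theorem cj_mul (g : G) : MulOn (cj H g) (dom H g) := by
  intro a ha b hb
  apply Subtype.ext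
  rw [cj_coe H (mul_mem ha hb), Subgroup.coe_mul H (cj H g a), cj_coe H ha, cj_coe H hb,
    Subgroup.coe_mul]
  group

variable (hH : ∀ g : G, (dom H g).FiniteIndex)

/-- the germ of the conjugation by `g` -/
noncomputable def germ (g : G) : VEnd H :=
  Quotient.mk _ ⟨cj H g, dom H g, hH g, cj_mul H g⟩

/-- the homomorphism to the virtual endomorphisms -/
noncomputable def toEnd : G →* VEnd H where
  toFun := germ H hH
  map_one' := by
    refine Quotient.sound ⟨⊤, inferInstance, fun a _ => ?_⟩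
    apply Subtype.ext
    have h1 : a ∈ dom H (1 : G) := by
      rw [mem_dom]
      simp
    show (cj H 1 a : G) = a
    rw [cj_coe H h1]
    simp
  map_mul' g k := by
    obtain ⟨D, hD, hDk, hDg⟩ := exists_preimage (hH k) (cj_mul H k) (hH g)
    refine Quotient.sound ⟨D, hD, fun a ha => ?_⟩
    apply Subtype.ext
    have h1 : g * (k * a * k⁻¹) * g⁻¹ ∈ H := by
      have := hDg a ha
      rw [mem_dom, cj_coe H (hDk ha)] at this
      exact this
    have h2 : a ∈ dom H (g * k) := by
      rw [mem_dom]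
      convert h1 using 1
      group
    show (cj H (g * k) a : G) = cj H g (cj H k a)
    rw [cj_coe H h2, cj_coe H (hDg a ha), cj_coe H (hDk ha)]
    group

/-- the homomorphism to the abstract commensurator -/
noncomputable def toComm : G →* Comm H := (toEnd H hH).toHomUnits

theorem of_toComm {g : G} (h : toComm H hH g = 1) :
    (Subgroup.centralizer {g}).relIndex H ≠ 0 := by
  have h1 : germ H hH g = 1 := congrArg Units.val h
  obtain ⟨A, hA, h2⟩ := Quotient.exact h1
  have h3 : A ⊓ dom H g ≤ (Subgroup.centralizer {g}).subgroupOf H := by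
    intro a ha
    rw [Subgroup.mem_subgroupOf, Subgroup.mem_centralizer_singleton_iff]
    have h4 : (cj H g a : G) = a := congrArg Subtype.val (h2 a ha.1)
    rw [cj_coe H ha.2, mul_inv_eq_iff_eq_mul] at h4
    exact h4.symm
  have h5 := hH g
  have h6 : ((Subgroup.centralizer {g}).subgroupOf H).FiniteIndex :=
    Subgroup.finiteIndex_of_le h3
  exact h6.index_ne_zero

end hom

/-- all conjugacy classes of elements different from `1` are infinite -/
def ICC (P : Type) [Group P] : Prop := ∀ x : P, x ≠ 1 → (conjugatesOf x).Infinite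

theorem eq_one_of_icc {P : Type} [Group P] (hP : ICC P) {x : P}
    (h : (Subgroup.centralizer {x}).FiniteIndex) : x = 1 := by
  by_contra hx
  refine hP x hx ?_
  have h1 : Finite (P ⧸ Subgroup.centralizer {x}) := inferInstance
  let F : P ⧸ Subgroup.centralizer {x} → P := Quotient.lift (fun g : P => g * x * g⁻¹) (by
    intro a b hab
    have h2 : a⁻¹ * b ∈ Subgroup.centralizer {x} := QuotientGroup.leftRel_apply.1 hab
    rw [Subgroup.mem_centralizer_singleton_iff] at h2
    show a * x * a⁻¹ = b * x * b⁻¹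
    calc a * x * a⁻¹ = a * (x * (a⁻¹ * b)) * b⁻¹ := by group
      _ = a * ((a⁻¹ * b) * x) * b⁻¹ := by rw [h2]
      _ = b * x * b⁻¹ := by group)
  refine (Set.finite_range F).subset ?_
  intro y hy
  obtain ⟨c, hc⟩ := isConj_iff.1 hy
  exact ⟨QuotientGroup.mk c, hc⟩

section tree

variable {C : ∀ (G : Type) [Group G], Prop} {G V : Type} [Group G] [MulAction G V]

omit [MulAction G V] in
/-- commensurable stabilizers -/
theorem commensurable {T : SimpleGraph V} (hT : T.Connected) (S : V → Subgroup G)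
    (h : ∀ x y, T.Adj x y → (S x).relIndex (S y) ≠ 0) (x y : V) : (S x).relIndex (S y) ≠ 0 := by
  obtain ⟨p⟩ := hT.preconnected x y
  induction p with
  | nil =>
    rw [Subgroup.relIndex_self]
    exact one_ne_zero
  | cons hadj p ih => exact Subgroup.relIndex_ne_zero_trans (h _ _ hadj) ih

theorem main_ker (hC : ClosedE C) (T : SimpleGraph V) (hT : T.IsTree)
    (hact : ∀ (g : G) (x y : V), T.Adj x y → T.Adj (g • x) (g • y))
    (N : Subgroup G) [hN : N.Normal] (hQ : C (G ⧸ N))
    (hfin : ∀ x y : V, T.Adj x y →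
      (N ⊓ MulAction.stabilizer G x).relIndex (N ⊓ MulAction.stabilizer G y) ≠ 0)
    (hfn : ∀ (x : V) (F : Subgroup ↥(N ⊓ MulAction.stabilizer G x)), F.Normal → Finite F → F = ⊥)
    (o : V) (hicc : ICC ↥(N ⊓ MulAction.stabilizer G o))
    (Q : Type) [Group Q] (ρ : G →* Q) (hCQ : C Q)
    (hρ : ∀ g : G, ρ g = 1 →
      (Subgroup.centralizer {g}).relIndex (N ⊓ MulAction.stabilizer G o) ≠ 0) : C G := by
  refine Pool.Agent.N24.TR.tree_local hC hT hact fun v => ?_
  refine ⟨Q × (G ⧸ N), inferInstance, ρ.prod (QuotientGroup.mk' N), hC.base.prod _ _ hCQ hQ,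
    fun g hg h1 => ?_⟩
  rw [MonoidHom.prod_apply, Prod.mk_eq_one] at h1
  have h3 : g ∈ N := (QuotientGroup.eq_one_iff g).1 h1.2
  -- the kernel in the stabilizer of `v` is finite
  have hco : (N ⊓ MulAction.stabilizer G o).relIndex (N ⊓ MulAction.stabilizer G v) ≠ 0 :=
    commensurable hT.1 (fun x => N ⊓ MulAction.stabilizer G x) hfin o v
  have h4 : Disjoint ρ.ker (N ⊓ MulAction.stabilizer G o) := by
    rw [Subgroup.disjoint_def]
    intro k hk1 hk2
    let k' : ↥(N ⊓ MulAction.stabilizer G o) := ⟨k, hk2⟩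
    have h5 : (Subgroup.centralizer {k'}).FiniteIndex := by
      refine ⟨?_⟩
      have h6 : (Subgroup.centralizer {k}).subgroupOf (N ⊓ MulAction.stabilizer G o) =
          Subgroup.centralizer {k'} := by
        ext x
        rw [Subgroup.mem_subgroupOf, Subgroup.mem_centralizer_singleton_iff,
          Subgroup.mem_centralizer_singleton_iff, ← Subtype.coe_inj]
        rfl
      rw [← h6]
      exact hρ k hk1
    exact congrArg Subtype.val (eq_one_of_icc hicc h5)
  have h7 : Finite (ρ.ker.subgroupOf (N ⊓ MulAction.stabilizer G v)) := by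
    have h8 : (⊥ : Subgroup G).relIndex (ρ.ker ⊓ (N ⊓ MulAction.stabilizer G v)) ≠ 0 := by
      have h9 : (N ⊓ MulAction.stabilizer G o) ⊓ (ρ.ker ⊓ (N ⊓ MulAction.stabilizer G v)) = ⊥ := by
        rw [eq_bot_iff]
        intro x hx
        exact (Subgroup.disjoint_def.1 h4) hx.2.1 hx.1
      rw [← h9, Subgroup.inf_relIndex_right]
      exact Subgroup.relIndex_ne_zero_trans hco
        (by rw [Subgroup.relIndex_eq_one.2 inf_le_right]; exact one_ne_zero)
    rw [Subgroup.relIndex_bot_left] at h8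
    have h10 : Finite ↥(ρ.ker ⊓ (N ⊓ MulAction.stabilizer G v)) := Nat.finite_of_card_ne_zero h8
    refine Finite.of_injective (fun x : ρ.ker.subgroupOf (N ⊓ MulAction.stabilizer G v) =>
      (⟨((x : ↥(N ⊓ MulAction.stabilizer G v)) : G), x.2, x.1.2⟩ :
        ↥(ρ.ker ⊓ (N ⊓ MulAction.stabilizer G v)))) ?_
    intro a b hab
    exact Subtype.ext (Subtype.ext
      (congrArg (fun z : ↥(ρ.ker ⊓ (N ⊓ MulAction.stabilizer G v)) => (z : G)) hab))
  have h8 := hfn v (ρ.ker.subgroupOf (N ⊓ MulAction.stabilizer G v)) inferInstance h7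
  have h9 : (⟨g, h3, hg⟩ : ↥(N ⊓ MulAction.stabilizer G v)) ∈
      ρ.ker.subgroupOf (N ⊓ MulAction.stabilizer G v) := h1.1
  rw [h8, Subgroup.mem_bot] at h9
  exact congrArg Subtype.val h9

/-- **commensurable stabilizers** -/
theorem main (hC : ClosedE C) (T : SimpleGraph V) (hT : T.IsTree)
    (hact : ∀ (g : G) (x y : V), T.Adj x y → T.Adj (g • x) (g • y))
    (N : Subgroup G) [hN : N.Normal] (hQ : C (G ⧸ N))
    (hfin : ∀ x y : V, T.Adj x y →
      (N ⊓ MulAction.stabilizer G x).relIndex (N ⊓ MulAction.stabilizer G y) ≠ 0)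
    (hfn : ∀ (x : V) (F : Subgroup ↥(N ⊓ MulAction.stabilizer G x)), F.Normal → Finite F → F = ⊥)
    (o : V) (hicc : ICC ↥(N ⊓ MulAction.stabilizer G o))
    (h : C (Comm ↥(N ⊓ MulAction.stabilizer G o)) ∨
      ∃ (Q : Type) (_ : Group Q) (ρ : G →* Q), C Q ∧ ∀ g : G, ρ g = 1 →
        (Subgroup.centralizer {g}).relIndex (N ⊓ MulAction.stabilizer G o) ≠ 0) : C G := by
  rcases h with h | ⟨Q, _, ρ, hCQ, hρ⟩
  swap
  · exact main_ker hC T hT hact N hQ hfin hfn o hicc Q ρ hCQ hρ
  have hH : ∀ g : G, (dom (N ⊓ MulAction.stabilizer G o) g).FiniteIndex := by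
    intro g
    have h1 := commensurable hT.1 (fun x => N ⊓ MulAction.stabilizer G x) hfin (g⁻¹ • o) o
    have h2 : dom (N ⊓ MulAction.stabilizer G o) g =
        (N ⊓ MulAction.stabilizer G (g⁻¹ • o)).subgroupOf (N ⊓ MulAction.stabilizer G o) := by
      ext x
      rw [mem_dom, Subgroup.mem_subgroupOf, Subgroup.mem_inf, Subgroup.mem_inf,
        MulAction.mem_stabilizer_iff, MulAction.mem_stabilizer_iff]
      refine and_congr ?_ ?_
      · exact (hN.mem_comm_iff.trans (by rw [← mul_assoc, inv_mul_cancel, one_mul]))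
      · rw [mul_smul, mul_smul, eq_inv_smul_iff]
    refine ⟨?_⟩
    rw [h2]
    exact h1
  exact main_ker hC T hT hact N hQ hfin hfn o hicc _ (toComm _ hH) h fun g hg => of_toComm _ hH hg

end tree

end Pool.Agent.N24.CM
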